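import Pool.Agent.H67.HM.RES
import Pool.Agent.H67.HM.RSYS
import Pool.Agent.H11.HM.Hardy
import Pool.Agent.H29.HM.SMO
import Pool.Agent.H37.HM.WW
import Pool.Agent.H51.HM.ASM
import Pool.Agent.H51.HM.GEO
import Pool.Agent.H51.HM.REC
import Pool.Agent.H53.HM.ABS
import Pool.Agent.H53.HM.KEY
import Pool.Agent.H54.HM.Sep
import Pool.Agent.H66.HM.FRE
import Pool.Agent.H66.HM.FLAT
import Pool.Agent.H66.HM.FLN
import Pool.Agent.H69.HM.CLOSE
import Pool.Agent.H69.HM.MOM
import Pool.Agent.H83.HM.FA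
import Pool.Agent.H83.HM.Step
import Pool.Agent.H87.HM.CORR
import Pool.Agent.H97.HM.Disc
import Pool.Agent.H97.HM.Win
import Pool.Agent.H19.HM2.DEL
import Pool.Agent.H19.HM2.RID
import Pool.Agent.H26.HM2.SYM
import Pool.Agent.H31.HM2.KEY2
import Pool.Agent.H42.HM2.BIN
import Pool.Agent.H42.HM2.MUL
import Pool.Agent.H43.HM2.MRG
import Pool.Agent.H50.HM2.ACT
import Pool.Agent.H56.HM2.NUM
import Pool.Agent.H56.HM2.WPW
import Pool.Agent.H67.HM2.ABS2
import Pool.Agent.H67.HM2.GEO2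
import Pool.Agent.H67.HM2.RES2
import Pool.Agent.H67.HM2.RSYS2
import Pool.Agent.H67.HM2.WIN2
import Pool.Agent.H7.HM2.CRL
import Pool.Agent.H70.HM2.STA
import Pool.Agent.H75.HM2.MG2
import Pool.Agent.H80.HM2.FCP
import Pool.Agent.H81.HM2.NRM
import Pool.Agent.H83.HM2.NSB
import Pool.Agent.H83.HM2.SUBS
import Pool.Agent.H85.HM2.PZ
import Pool.Agent.H87.HM2.RINV2
import Pool.Agent.H96.HM2.INV
import Pool.Agent.H96.HM2.TEN
import Pool.Agent.H28.HM2.DIL
import Pool.Agent.H28.HM2.MOD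
import Pool.Agent.H40.HM2.MN
import Pool.Agent.H83.HM2.MD1
import Pool.Agent.H75.HM2.STR
import Pool.Agent.H60.HM2.EST
import Pool.Agent.H93.HM2.CHP
import Pool.Agent.H66.HM2.DSC2

/-!
# Invariant subspaces of the Hardy operator on `L^p[0,1]`, `1 < p < ∞`, `p ≠ 2`

For every `1 < p < ∞`, `p ≠ 2`, every closed subspace of `L^p[0,1]` that is invariant under the
Hardy operator `f ↦ (1/x) ∫₀ˣ f` is a limit of finite monomial spaces. The definitions (`HM.mu`,
`HM.hardyFun`, `HM.LpI`, `HM.HardyInvariant`, `HM.monoSpan`, `HM.IsMonomialSpace`) are in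
`Pool/Agent/H67/HM/Defs.lean`.
-/

namespace Pool.Agent.Results.MP_dc8965_an.HardyAllP

open HM

theorem below (p : ENNReal) [Fact (1 ≤ p)] (hp1 : 1 < p) (hp2 : p < 2)
    (M : Submodule ℂ (LpI p)) (hM : IsClosed (M : Set (LpI p))) (hH : HardyInvariant p M) :
    IsMonomialSpace p M := by
  have hFLAT : S_FLAT := FLAT_proved FRE_proved
  have hFLN : S_FLN := FLN_proved hFLAT
  have hSTEP : S_STEP := STEP_proved hFLN CORR_proved SPRN_proved YNG_proved TOEP_proved
  have hITER : S_ITER := ITER_proved hSTEP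
  have hCLOSE : S_CLOSE := CLOSE_proved hFLN t_SEP NEU_proved
  have hDISC : S_DISC := DISC_proved WIN_proved hITER hCLOSE
  have hKEY : S_KEY := KEY_proved hDISC REC_proved DUAL_proved HOL_proved
  have hABS : S_ABS := ABS_proved hKEY ASM_proved
  have hHOP : S_HOP := H11.HM.t_HOP TR_proved AEC_proved
  have hRINV : S_RINV := H11.HM.t_RINV hHOP (H11.HM.t_SCO AEC_proved) (H11.HM.t_HPW AEC_proved)
    MOM_proved
  have hRSYS : S_RSYS := RSYS_proved TR_proved AEC_proved Pool.Agent.H37.HM.WW_proved JJ_proved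
    EXP_proved GEO_proved SMO_proved
  exact RES_proved hRSYS hRINV hABS hHOP p hp1 hp2 M hM hH

theorem above (p : ENNReal) [Fact (1 ≤ p)] (hp2 : 2 < p) (hpt : p < ⊤)
    (M : Submodule ℂ (LpI p)) (hM : IsClosed (M : Set (LpI p))) (hH : HardyInvariant p M) :
    IsMonomialSpace p M := by
  have hN : S_NRM := NRM_proved
  have hS : S_STA := STA_proved
  have hT : S_TEN := TEN_proved hN
  have hW : S_WPW := WPW_proved CHP_proved hS hN
  have hMD1 : S_MD1 := MD1_proved hW (SYM_proved hT hN) (ACT_proved hT hN) DEL_proved hN hT CRL_proved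
  have hMOD : S_MOD := MOD_proved hMD1 NUM_proved hT hN
  have hSTR : S_STR := STR_proved hMOD SUBS_proved NSB_proved MUL_proved hN hS
  have hINV : S_INV := INV_proved hN
  have hEST : S_EST := EST_proved hINV RID_proved MUL_proved hN
  have hMN : S_MN := MN_proved hEST hSTR TEL_proved (BIN_proved hN) MUL_proved hN
  have hMG2 : S_MG2 := MG2_proved hW DIL_proved hN
  have hMRG : S_MRG := MRG_proved hMG2 hN
  have hDSC2 : S_DSC2 := H66.HM2.DSC2_proved WIN2_proved (PZ_proved hN) hMRG hMN hINV FCP_proved t_SEP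
    CRL_proved hN
  have hKEY : S_KEY2 := KEY2_proved hDSC2 REC_proved DUAL_proved HOL_proved
  have hABS : S_ABS2 := ABS2_proved hKEY ASM_proved
  have hHOP : S_HOP := H11.HM.t_HOP TR_proved AEC_proved
  have hRINV : S_RINV2 := RINV2_proved hHOP (H11.HM.t_SCO AEC_proved) (H11.HM.t_HPW AEC_proved)
    MOM_proved
  have hRSYS : S_RSYS2 := RSYS2_proved TR_proved AEC_proved Pool.Agent.H37.HM.WW_proved JJ_proved
    EXP_proved GEO2_proved SMO_proved
  exact RES2_proved hRSYS hRINV hABS hHOP p hp2 hpt M hM hH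

/-- Full answer to Q1: for all `1 < p < ∞`, `p ≠ 2`, every closed subspace of `L^p[0,1]` invariant
under the Hardy operator is a limit of finite monomial spaces. -/
theorem result (p : ENNReal) [Fact (1 ≤ p)] (hp1 : 1 < p) (hpt : p < ⊤) (hp2 : p ≠ 2)
    (M : Submodule ℂ (LpI p)) (hM : IsClosed (M : Set (LpI p))) (hH : HardyInvariant p M) :
    IsMonomialSpace p M := by
  rcases lt_or_gt_of_ne hp2 with h | h
  · exact below p hp1 h M hM hH
  · exact above p h hpt M hM hH

end Pool.Agent.Results.MP_dc8965_an.HardyAllP
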